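import Pool.Agent.Helper90.TS.CStmts

set_option autoImplicit false

/-! Module EM: the theorem of Erdos and Makkai. -/

namespace Pool.Agent.Helper90.TS

/-- Ramsey's theorem for pairs, two colours. -/
theorem em_ramsey (c : ℕ → ℕ → Prop) : ∃ g : ℕ → ℕ, StrictMono g ∧
    ((∀ i j, i < j → c (g i) (g j)) ∨ ∀ i j, i < j → ¬ c (g i) (g j)) := by
  classical
  have key : ∀ d : ℕ → ℕ → Prop, {m | {n | d m n} ∈ Filter.hyperfilter ℕ} ∈ Filter.hyperfilter ℕ →
      ∃ g : ℕ → ℕ, StrictMono g ∧ ∀ i j, i < j → d (g i) (g j) := by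
    intro d hA
    obtain ⟨g, -, hg⟩ := exists_seq_of_forall_finset_exists
      (fun m => {n | d m n} ∈ Filter.hyperfilter ℕ) (fun x y => x < y ∧ d x y) (by
      intro s hs
      have h1 : (⋂ x ∈ s, ({y | x < y} ∩ {n | d x n})) ∈ (Filter.hyperfilter ℕ : Filter ℕ) := by
        rw [Filter.biInter_finset_mem]
        intro x hx
        refine Filter.inter_mem ?_ (hs x hx)
        apply Filter.mem_hyperfilter_of_finite_compl
        apply (Set.finite_le_nat x).subset
        intro y hy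
        simpa using hy
      obtain ⟨y, hy1, hy2⟩ := (Filter.hyperfilter ℕ).nonempty_of_mem (Filter.inter_mem hA h1)
      refine ⟨y, hy1, fun x hx => ?_⟩
      have := Set.mem_iInter₂.mp hy2 x hx
      exact this)
    exact ⟨g, fun i j hij => (hg i j hij).1, fun i j hij => (hg i j hij).2⟩
  by_cases hA : {m | {n | c m n} ∈ Filter.hyperfilter ℕ} ∈ Filter.hyperfilter ℕ
  · obtain ⟨g, h1, h2⟩ := key c hA
    exact ⟨g, h1, Or.inl h2⟩
  · have hA' : {m | {n | ¬ c m n} ∈ Filter.hyperfilter ℕ} ∈ Filter.hyperfilter ℕ := by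
      rw [← Ultrafilter.compl_mem_iff_notMem] at hA
      refine Filter.mem_of_superset hA ?_
      intro m hm
      have : {n | c m n} ∉ Filter.hyperfilter ℕ := hm
      rw [← Ultrafilter.compl_mem_iff_notMem] at this
      exact this
    obtain ⟨g, h1, h2⟩ := key (fun m n => ¬ c m n) hA'
    exact ⟨g, h1, Or.inr h2⟩

theorem st_EM : ST_EM := by
  classical
  intro B _ F hF
  -- chosen witnesses
  have hch : ∀ p : Finset B × Finset B, ∃ S : Set B,
      (∃ S' ∈ F, (∀ x ∈ p.1, x ∈ S') ∧ ∀ x ∈ p.2, x ∉ S') →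
        S ∈ F ∧ (∀ x ∈ p.1, x ∈ S) ∧ ∀ x ∈ p.2, x ∉ S := by
    intro p
    by_cases h : ∃ S' ∈ F, (∀ x ∈ p.1, x ∈ S') ∧ ∀ x ∈ p.2, x ∉ S'
    · obtain ⟨S, h1, h2⟩ := h
      exact ⟨S, fun _ => ⟨h1, h2⟩⟩
    · exact ⟨∅, fun h' => absurd h' h⟩
  choose ch hch using hch
  -- a member of `F` which is not a finite Boolean combination
  let TT : (Σ t : Finset (Finset B × Finset B), ((t → Bool) → Bool)) → Set B :=
    fun w => {b | w.2 (fun p => decide (b ∈ ch p)) = true}
  have hTT : ¬ F ⊆ Set.range TT := fun h => hF ((Set.countable_range TT).mono h)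
  obtain ⟨S, hSF, hS⟩ := Set.not_subset.mp hTT
  have hsep : ∀ t : Finset (Finset B × Finset B), ∃ b ∈ S, ∃ b' ∉ S, ∀ p ∈ t,
      (b ∈ ch p ↔ b' ∈ ch p) := by
    intro t
    by_contra hcon
    push Not at hcon
    apply hS
    refine ⟨⟨t, fun v => decide (∃ b ∈ S, ∀ p : t, decide (b ∈ ch p) = v p)⟩, ?_⟩
    ext b
    simp only [TT, Set.mem_ofPred_eq, decide_eq_true_eq]
    constructor
    · rintro ⟨b1, hb1, hb2⟩
      by_contra hb
      obtain ⟨p, hp, h⟩ := hcon b1 hb1 b hb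
      have := hb2 ⟨p, hp⟩
      rw [decide_eq_decide] at this
      rcases h with h | h
      · exact h.2 (this.mp h.1)
      · exact h.1 (this.mpr h.2)
    · intro hb
      exact ⟨b, hb, fun p => rfl⟩
  obtain ⟨f, hf1, hf2⟩ := exists_seq_of_forall_finset_exists
    (fun x : B × B × (Finset B × Finset B) => x.1 ∈ S ∧ x.2.1 ∉ S ∧ x.1 ∈ ch x.2.2 ∧
      x.2.1 ∉ ch x.2.2 ∧ ch x.2.2 ∈ F)
    (fun x y => x.1 ∈ ch y.2.2 ∧ x.2.1 ∉ ch y.2.2 ∧ (y.1 ∈ ch x.2.2 ↔ y.2.1 ∈ ch x.2.2)) (by
    intro s hs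
    obtain ⟨b, hb, b', hb', h⟩ := hsep (s.image fun x => x.2.2)
    have h1 := hch (insert b (s.image fun x => x.1), insert b' (s.image fun x => x.2.1))
      ⟨S, hSF, by
        intro x hx
        rcases Finset.mem_insert.mp hx with rfl | hx
        · exact hb
        · obtain ⟨y, hy, rfl⟩ := Finset.mem_image.mp hx
          exact (hs y hy).1, by
        intro x hx
        rcases Finset.mem_insert.mp hx with rfl | hx
        · exact hb'
        · obtain ⟨y, hy, rfl⟩ := Finset.mem_image.mp hx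
          exact (hs y hy).2.1⟩
    refine ⟨(b, b', (insert b (s.image fun x => x.1), insert b' (s.image fun x => x.2.1))),
      ⟨hb, hb', h1.2.1 b (Finset.mem_insert_self _ _), h1.2.2 b' (Finset.mem_insert_self _ _), h1.1⟩,
      fun x hx => ⟨h1.2.1 _ (Finset.mem_insert_of_mem (Finset.mem_image_of_mem _ hx)),
        h1.2.2 _ (Finset.mem_insert_of_mem (Finset.mem_image_of_mem (fun x => x.2.1) hx)),
        h _ (Finset.mem_image_of_mem (fun x => x.2.2) hx)⟩⟩)
  obtain ⟨g, hg, hr⟩ := em_ramsey fun i j => (f j).1 ∈ ch (f i).2.2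
  rcases hr with hr | hr
  · refine ⟨fun i => (f (g i)).2.1, fun i => ch (f (g i)).2.2, fun i => (hf1 _).2.2.2.2,
      Or.inr fun i j => ?_⟩
    constructor
    · intro h
      by_contra hij
      push Not at hij
      rcases hij.lt_or_eq with h1 | rfl
      · exact (hf2 _ _ (hg h1)).2.1 h
      · exact (hf1 _).2.2.2.1 h
    · intro h
      exact (hf2 _ _ (hg h)).2.2.mp (hr _ _ h)
  · refine ⟨fun i => (f (g (i + 1))).1, fun i => ch (f (g i)).2.2, fun i => (hf1 _).2.2.2.2,
      Or.inl fun i j => ?_⟩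
    constructor
    · intro h
      by_contra hij
      push Not at hij
      exact hr j (i + 1) (by omega) h
    · intro h
      rcases (show i + 1 ≤ j by omega).lt_or_eq with h1 | h1
      · exact (hf2 _ _ (hg h1)).1
      · rw [← h1]; exact (hf1 _).2.2.1

end Pool.Agent.Helper90.TS
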