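import Pool.Agent.Helper93.TS.Stmts

/-!
# Two-scale sums-differences: sizes of distances and parameters
-/

set_option autoImplicit false

namespace Pool.Agent.Helper38.TS

open Pool.Agent.Helper8.Kak Pool.Agent.Helper93.TS
open Pool.Agent.Helper89.KakGeo (up_mv dn_mv up_sub dn_sub)

theorem Ex_mono_supp {Ω : Type} [Fintype Ω] {p : Ω → ℝ} (hp : IsProb p) {f g : Ω → ℝ}
    (h : ∀ ω, 0 < p ω → f ω ≤ g ω) : Ex p f ≤ Ex p g := by
  unfold Ex
  refine Finset.sum_le_sum fun ω _ => ?_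
  rcases (hp.1 ω).eq_or_lt with h0 | h0
  · rw [← h0, zero_mul, zero_mul]
  · exact mul_le_mul_of_nonneg_left (h ω h0) (hp.1 ω)

theorem st_PRE (h1 : ST_SPA) (h2 : ST_PRA) (h3 : ST_NCL) (h4 : ST_UPC) (h5 : ST_DNC) :
    ST_PRE := by
  intro m N D
  obtain ⟨hp, lk, -⟩ := h1 m N D
  obtain ⟨κ0, ldS0, ldS1, ldR0, ld10⟩ := h2 m N D
  have nlB0 := h3 m N D
  have l2 := log2_le
  have l4 := log4_le
  have l8 := log8_le
  have upb : Ex D.pz (fun y => up (N * N) (D.vb y)) ≤ 8 * (D.κ + 1) := by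
    have e : Ex D.pz (fun y => up (N * N) (D.vb y)) ≤
        Ex D.pz (fun y => ld (D.T (zS y)) (D.T (z0 y)) + (Real.log 2 + Real.log 4)) := by
      refine Ex_mono hp fun y => ?_
      have h5 := up_mv (((D.T (zR y) : ℕ) : ℤ) - ((D.T (z0 y) : ℕ) : ℤ)) (D.T (zS y))
        (D.T (z0 y)) (D.T (zT y))
      have h6 := up_sub (D.T (zR y)) (D.T (z0 y))
      unfold Dat.vb
      linarith
    rw [Ex_add, Ex_const hp] at e
    linarith
  have dnb : Ex D.pz (fun y => dn (N * N) (D.vb y)) ≤ 18 * (D.κ + 1) := by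
    have e : Ex D.pz (fun y => dn (N * N) (D.vb y)) ≤
        Ex D.pz (fun y => ld (D.T (zR y)) (D.T (z0 y)) + (ld (D.T (zS y)) (D.T (z0 y)) +
          (ld (D.T (zS y)) (D.T (zT y)) + (Real.log 2 + Real.log 8)))) := by
      refine Ex_mono hp fun y => ?_
      have h5 := dn_mv (((D.T (zR y) : ℕ) : ℤ) - ((D.T (z0 y) : ℕ) : ℤ)) (D.T (zS y))
        (D.T (z0 y)) (D.T (zT y))
      have h6 := dn_sub (D.T (zR y)) (D.T (z0 y))
      unfold Dat.vb
      linarith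
    rw [Ex_add, Ex_add, Ex_add, Ex_const hp] at e
    linarith
  have upc : Ex D.pz (fun y => up (N * N) (D.vc y)) ≤ 8 * (D.κ + 1) := by
    have e : Ex D.pz (fun y => up (N * N) (D.vc y)) ≤
        Ex D.pz (fun y => nl (D.T (zB y)) (D.T (z0 y)) + Real.log 4) := by
      refine Ex_mono_supp hp fun y hy => ?_
      exact h4 N (D.T (z0 y)) (D.T (zR y)) (D.T (zB y)) (lk y hy).tB
    rw [Ex_add, Ex_const hp] at e
    linarith
  have dnc : Ex D.pz (fun y => dn (N * N) (D.vc y)) ≤ 18 * (D.κ + 1) := by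
    have e : Ex D.pz (fun y => dn (N * N) (D.vc y)) ≤
        Ex D.pz (fun y => ld (D.T (zR y)) (D.T (z0 y)) +
          (2 * nl (D.T (zB y)) (D.T (z0 y)) + Real.log 8)) := by
      refine Ex_mono_supp hp fun y hy => ?_
      have := h5 N (D.T (z0 y)) (D.T (zR y)) (D.T (zB y)) (lk y hy).tB
      unfold Dat.vc
      linarith
    rw [Ex_add, Ex_add, Ex_smul, Ex_const hp] at e
    linarith
  exact ⟨hp, lk, κ0, ldS0, ldS1, ldR0, ld10, nlB0, upb, dnb, upc, dnc⟩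

end Pool.Agent.Helper38.TS

namespace Pool.Agent.Helper93.TS

theorem st_PRE (h1 : ST_SPA) (h2 : ST_PRA) (h3 : ST_NCL) (h4 : ST_UPC) (h5 : ST_DNC) :
    ST_PRE := Pool.Agent.Helper38.TS.st_PRE h1 h2 h3 h4 h5

end Pool.Agent.Helper93.TS
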